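import Pool.Agent.W602.GT.Dich
import Pool.Agent.NH29.GN.Hi

/-!
# Bad points from derivations
-/

set_option autoImplicit false
set_option synthInstance.maxHeartbeats 400000

open MvPolynomial

namespace Pool.Agent.Run7.h789.LG

open Pool.Agent.NH29.GN
open Pool.Agent.W602.GT (consts mem_consts overConsts overConsts_apply)

/-- no bad points off a closed set of coefficients -/
theorem nobad {k₀ : Type} [Field k₀] [CharZero k₀] {M n q : ℕ}
    {V : Set (MvPolynomial (Fin (M + 1)) k₀)} (hV : ∀ H ∈ V, ∃ e, H.IsHomogeneous e)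
    {ℓ : Fin (n + 1) → MvPolynomial (Fin (M + 1)) k₀} (hℓ : ∀ j, (ℓ j).IsHomogeneous 1)
    (hN : NoZero V ℓ) (hq : n + 1 ≤ q) {d : Fin q → ℕ} (hd : ∀ i, 1 ≤ d i)
    (C : Finset (Fin q)) (hNum : Num2 n d C) :
    ∃ Φ : MvPolynomial (Idx M d) k₀, Φ ≠ 0 ∧ ∀ (K L : Type) [Field K] [Field L] [Algebra k₀ K]
      [Algebra K L] [IsAlgClosed K] (t : Idx M d → K), aeval t Φ ≠ 0 →
      ∀ x : Fin (M + 1) → L, ¬ Bad k₀ K L V C t x := by
  by_contra hcon
  push Not at hcon
  obtain ⟨K', L', _, _, _, _, _, t', x', ht', hx'⟩ := stb2 k₀ M q V d C (by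
    intro Q hQ
    obtain ⟨K, L, i1, i2, i3, i4, i5, t, ht, x, hx⟩ := hcon Q hQ
    exact ⟨K, L, i1, i2, i3, i4, i5, t, x, ht, hx⟩)
  exact Hi.stcP k₀ K' L' M n q V hV ℓ hℓ hN hq d hd C hNum t' ht' x' hx'

section

variable {k K : Type} [Field k] [Field K] [Algebra k K] (D : Derivation k K K)

/-- the logarithmic derivative -/
noncomputable def lg (x : K) : K := D x / x

theorem lg_one : lg D 1 = 0 := by
  unfold lg
  rw [D.map_one_eq_zero, zero_div]

theorem lg_mul {x y : K} (hx : x ≠ 0) (hy : y ≠ 0) : lg D (x * y) = lg D x + lg D y := by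
  unfold lg
  rw [D.leibniz]
  simp only [smul_eq_mul]
  field_simp
  ring

theorem lg_inv (x : K) : lg D x⁻¹ = - lg D x := by
  by_cases hx : x = 0
  · rw [hx]
    unfold lg
    simp
  · have h1 := lg_mul D hx (inv_ne_zero hx)
    rw [mul_inv_cancel₀ hx, lg_one] at h1
    exact eq_neg_of_add_eq_zero_right h1.symm

theorem lg_div {x y : K} (hx : x ≠ 0) (hy : y ≠ 0) : lg D (x / y) = lg D x - lg D y := by
  rw [div_eq_mul_inv, lg_mul D hx (inv_ne_zero hy), lg_inv, sub_eq_add_neg]

theorem lg_pow {x : K} (hx : x ≠ 0) (n : ℕ) : lg D (x ^ n) = n * lg D x := by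
  induction n with
  | zero => rw [pow_zero, lg_one]; simp
  | succ n ih =>
    rw [pow_succ, lg_mul D (pow_ne_zero _ hx) hx, ih]
    push_cast
    ring

theorem lg_zpow {x : K} (hx : x ≠ 0) (n : ℤ) : lg D (x ^ n) = n * lg D x := by
  cases n with
  | ofNat n =>
    simp only [Int.ofNat_eq_natCast, zpow_natCast]
    rw [lg_pow D hx]
    push_cast
    rfl
  | negSucc n =>
    rw [zpow_negSucc, lg_inv, lg_pow D hx, Int.negSucc_eq]
    push_cast
    ring

theorem lg_prod {ι : Type} [DecidableEq ι] (s : Finset ι) {f : ι → K} (hf : ∀ i, f i ≠ 0) :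
    lg D (∏ i ∈ s, f i) = ∑ i ∈ s, lg D (f i) := by
  induction s using Finset.induction_on with
  | empty => rw [Finset.prod_empty, Finset.sum_empty, lg_one]
  | insert a s ha ih =>
    rw [Finset.prod_insert ha, Finset.sum_insert ha,
      lg_mul D (hf a) (Finset.prod_ne_zero_iff.2 fun i _ => hf i), ih]

theorem der_eq_lg {x : K} (hx : x ≠ 0) : D x = lg D x * x := by
  unfold lg
  rw [div_mul_cancel₀ _ hx]

theorem eq_zero_of_lg {x : K} (hx : x ≠ 0) (h : lg D x = 0) : D x = 0 := by
  rw [der_eq_lg D hx, h, zero_mul]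

variable [CharZero k]

/-- the constants are algebraically closed -/
theorem const_alg {x : K} (hx : IsAlgebraic (consts D) x) : D x = 0 := by
  have hint : IsIntegral (consts D) x := hx.isIntegral
  have hchar : CharZero (consts D) := charZero_of_injective_algebraMap
    (algebraMap k (consts D)).injective
  have h1 : overConsts D (Polynomial.aeval x (minpoly (consts D) x)) = 0 := by
    rw [minpoly.aeval, map_zero]
  rw [Derivation.map_aeval] at h1
  have h2 : Polynomial.aeval x (Polynomial.derivative (minpoly (consts D) x)) ≠ 0 :=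
    (minpoly.irreducible hint).separable.aeval_derivative_ne_zero (minpoly.aeval _ _)
  rw [smul_eq_mul, overConsts_apply] at h1
  exact (mul_eq_zero.mp h1).resolve_left h2

omit [CharZero k] in
/-- monomials with different eigenvalues are linearly independent over the constants -/
theorem mon_ind {q : ℕ} {g : Fin q → K} (hg : ∀ b, g b ≠ 0) (hD : ∀ b, D (lg D (g b)) = 0)
    (S : Finset (Fin q → ℤ))
    (hS : ∀ m ∈ S, ∀ m' ∈ S, m ≠ m' → ∀ a : consts D, ∏ b, g b ^ m b ≠ (a : K) * ∏ b, g b ^ m' b) :
    LinearIndependent (consts D) fun m : S => ∏ b, g b ^ m.1 b := by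
  classical
  have hp : ∀ m : Fin q → ℤ, ∏ b, g b ^ m b ≠ 0 := fun m =>
    Finset.prod_ne_zero_iff.2 fun b _ => zpow_ne_zero _ (hg b)
  have hl : ∀ m : Fin q → ℤ, lg D (∏ b, g b ^ m b) = ∑ b, (m b : K) * lg D (g b) := by
    intro m
    rw [lg_prod D _ fun b => zpow_ne_zero _ (hg b)]
    exact Finset.sum_congr rfl fun b _ => lg_zpow D (hg b) (m b)
  have hc : ∀ m : Fin q → ℤ, D (∑ b, (m b : K) * lg D (g b)) = 0 := by
    intro m
    rw [map_sum]
    refine Finset.sum_eq_zero fun b _ => ?_
    rw [D.leibniz, hD b, smul_zero, zero_add]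
    have : D ((m b : ℤ) : K) = 0 := D.map_intCast _
    rw [this, smul_zero]
  refine Module.End.eigenvectors_linearIndependent' (R := consts D) (M := K)
    (overConsts D : Module.End (consts D) K)
    (fun m : S => (⟨∑ b, (m.1 b : K) * lg D (g b), hc m.1⟩ : consts D)) ?_ _ ?_
  · intro m m' h
    by_contra hne
    have h1 : ∑ b, (m.1 b : K) * lg D (g b) = ∑ b, (m'.1 b : K) * lg D (g b) :=
      congrArg Subtype.val h
    have h2 : lg D ((∏ b, g b ^ m.1 b) / ∏ b, g b ^ m'.1 b) = 0 := by
      rw [lg_div D (hp _) (hp _), hl, hl, h1, sub_self]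
    have h3 := eq_zero_of_lg D (div_ne_zero (hp _) (hp _)) h2
    refine hS m.1 m.2 m'.1 m'.2 (fun h => hne (Subtype.ext h)) ⟨_, h3⟩ ?_
    rw [div_mul_cancel₀ _ (hp _)]
  · intro m
    refine ⟨?_, hp _⟩
    rw [Module.End.mem_eigenspace_iff]
    change D (∏ b, g b ^ m.1 b) = (∑ b, (m.1 b : K) * lg D (g b)) * ∏ b, g b ^ m.1 b
    rw [← hl]
    exact der_eq_lg D (hp _)

/-- a bad point from a derivation -/
theorem bad_of_der {k₀ : Type} [Field k₀] [Algebra k₀ k] {M q : ℕ}
    {V : Set (MvPolynomial (Fin (M + 1)) k₀)} {d : Fin q → ℕ} {C : Finset (Fin q)}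
    {t : Idx M d → k} {y : Fin (M + 1) → K}
    (hV : ∀ H ∈ V, eval₂ ((algebraMap k K).comp (algebraMap k₀ k)) y H = 0)
    (hC : ∀ c ∈ C, fv t y c = 0) (hoff : ∀ b, b ∉ C → fv t y b ≠ 0) (h0 : y ≠ 0)
    (hD : ∀ b₀, b₀ ∉ C → ∀ b, D (lg D (quo C t y b₀ b)) = 0)
    (hnc : ∃ a a', y a' ≠ 0 ∧ D (y a / y a') ≠ 0) {Q : MvPolynomial (Idx M d) k₀}
    (hQ : aeval t Q ≠ 0) :
    ∃ (K' L' : Type) (_ : Field K') (_ : Field L') (_ : Algebra k₀ K') (_ : Algebra K' L')
      (_ : IsAlgClosed K') (t' : Idx M d → K') (x' : Fin (M + 1) → L'),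
      aeval t' Q ≠ 0 ∧ Bad k₀ K' L' V C t' x' := by
  classical
  let A₀ := consts D
  let Ω := AlgebraicClosure K
  let K' := algebraicClosure A₀ Ω
  have hcl : IsAlgClosed K' := (algebraicClosure.isAlgClosure A₀ Ω).isAlgClosed
  let i₀ : k₀ →+* K' := (algebraMap A₀ K').comp ((algebraMap k A₀).comp (algebraMap k₀ k))
  let _ : Algebra k₀ K' := i₀.toAlgebra
  obtain ⟨t', ht'⟩ : ∃ t' : Idx M d → K', t' = fun s => algebraMap A₀ K' (algebraMap k A₀ (t s)) :=
    ⟨_, rfl⟩
  obtain ⟨y', hy'⟩ : ∃ y' : Fin (M + 1) → Ω, y' = fun a => algebraMap K Ω (y a) := ⟨_, rfl⟩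
  have hmap : ∀ a : k, algebraMap K' Ω (algebraMap A₀ K' (algebraMap k A₀ a)) =
      algebraMap K Ω (algebraMap k K a) := fun a => rfl
  have hval : ∀ β : Fin (M + 1) →₀ ℕ, val y' β = algebraMap K Ω (val y β) := by
    intro β
    unfold val
    rw [map_prod, hy']
    exact Finset.prod_congr rfl fun j _ => (map_pow _ _ _).symm
  have hfv : ∀ b, fv t' y' b = algebraMap K Ω (fv t y b) := by
    intro b
    unfold fv
    rw [map_sum]
    refine Finset.sum_congr rfl fun β _ => ?_
    rw [map_mul, hval, ht', hmap]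
  have hquo : ∀ b₀ b, quo C t' y' b₀ b = algebraMap K Ω (quo C t y b₀ b) := by
    intro b₀ b
    unfold quo
    split_ifs
    · exact (map_one _).symm
    · rw [map_div₀, map_pow, map_pow, hfv, hfv]
  have hinj := (algebraMap K Ω).injective
  refine ⟨K', Ω, inferInstance, inferInstance, inferInstance, inferInstance, hcl, t', y', ?_, ?_⟩
  · have h1 : aeval t' Q = algebraMap A₀ K' (algebraMap k A₀ (aeval t Q)) := by
      rw [ht', aeval_def, aeval_def, ← RingHom.comp_apply, hom_eval₂]
      rfl
    rw [h1]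
    intro h
    exact hQ ((map_eq_zero _).1 ((map_eq_zero _).1 h))
  · refine ⟨fun H hH => ?_, fun c hc => ?_, fun b hb => ?_, fun h => ?_, fun c z h => ?_,
      fun b₀ hb₀ S c hsum hnp => ?_⟩
    · have h1 : eval₂ ((algebraMap K' Ω).comp (algebraMap k₀ K')) y' H =
          algebraMap K Ω (eval₂ ((algebraMap k K).comp (algebraMap k₀ k)) y H) := by
        rw [hom_eval₂, hy']
        rfl
      rw [h1, hV H hH, map_zero]
    · rw [hfv, hC c hc, map_zero]
    · rw [hfv]
      exact fun h => hoff b hb ((map_eq_zero _).1 h)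
    · apply h0
      funext a
      have h1 := congrFun h a
      rw [hy'] at h1
      exact (map_eq_zero _).1 h1
    · obtain ⟨a, a', ha', hne⟩ := hnc
      have h1 : ∀ a, algebraMap K Ω (y a) = c * algebraMap K' Ω (z a) := fun a => by
        have := congrFun h a
        rwa [hy'] at this
      have hc0 : c ≠ 0 := by
        rintro rfl
        have := h1 a'
        rw [zero_mul, map_eq_zero] at this
        exact ha' this
      have h2 : algebraMap K Ω (y a / y a') = algebraMap K' Ω (z a / z a') := by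
        rw [map_div₀, map_div₀, h1 a, h1 a', mul_div_mul_left _ _ hc0]
      have h3 : IsAlgebraic A₀ (algebraMap K Ω (y a / y a')) := by
        rw [h2]
        exact mem_algebraicClosure_iff.1 (z a / z a').2
      have h4 : IsAlgebraic A₀ (y a / y a') := (isAlgebraic_algebraMap_iff hinj).1 h3
      exact hne (const_alg D h4)
    · have hq0 : ∀ b, quo C t y b₀ b ≠ 0 := by
        intro b
        unfold quo
        split_ifs with hb
        · exact one_ne_zero
        · exact div_ne_zero (pow_ne_zero _ (hoff b hb)) (pow_ne_zero _ (hoff b₀ hb₀))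
      have hprod : ∀ m : Fin q → ℤ, ∏ b, quo C t' y' b₀ b ^ m b =
          algebraMap K Ω (∏ b, quo C t y b₀ b ^ m b) := by
        intro m
        rw [map_prod]
        refine Finset.prod_congr rfl fun b _ => ?_
        rw [hquo, map_zpow₀]
      have hli := mon_ind D hq0 (hD b₀ hb₀) S (by
        intro m hm m' hm' hne a h
        apply hnp m hm m' hm' hne (algebraMap A₀ K' a)
        rw [hprod, hprod, h, map_mul]
        rfl)
      have hchar : CharZero Ω := charZero_of_injective_algebraMap
        ((algebraMap K Ω).comp (algebraMap k K)).injective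
      have h5 := ld Ω (algebraMap A₀ Ω).fieldRange (algebraMap K Ω).fieldRange (by
          rintro _ ⟨a, rfl⟩
          exact ⟨(a : K), rfl⟩) (by
          rintro _ ⟨x, rfl⟩ halg
          have h6 : IsAlgebraic A₀ (algebraMap K Ω x) := by
            obtain ⟨p, hp, hpx⟩ := halg
            -- pull back the polynomial
            have hb : Function.Bijective ((algebraMap A₀ Ω).rangeRestrictField) :=
              ⟨(RingHom.injective _), by
                rintro ⟨_, z, rfl⟩
                exact ⟨z, rfl⟩⟩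
            let e : A₀ ≃+* (algebraMap A₀ Ω).fieldRange := RingEquiv.ofBijective _ hb
            refine ⟨p.map e.symm.toRingHom, ?_, ?_⟩
            · rw [Ne, Polynomial.map_eq_zero_iff e.symm.injective]
              exact hp
            · rw [Polynomial.aeval_def, Polynomial.eval₂_map]
              rw [Polynomial.aeval_def] at hpx
              have h7 : (algebraMap A₀ Ω).comp e.symm.toRingHom =
                  algebraMap (algebraMap A₀ Ω).fieldRange Ω := by
                ext z
                obtain ⟨w, rfl⟩ := e.surjective z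
                change algebraMap A₀ Ω (e.symm (e w)) = _
                rw [e.symm_apply_apply]
                rfl
              rw [h7]
              exact hpx
          have h7 : IsAlgebraic A₀ x := (isAlgebraic_algebraMap_iff hinj).1 h6
          exact ⟨⟨x, const_alg D h7⟩, rfl⟩) S (fun m => algebraMap K Ω (∏ b, quo C t y b₀ b ^ m.1 b))
        (fun m => ⟨_, rfl⟩) (by
          intro c' hc' hsum'
          choose a ha using hc'
          have h8 : ∑ m : S, a m • ∏ b, quo C t y b₀ b ^ m.1 b = 0 := by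
            apply hinj
            rw [map_sum, map_zero, ← hsum']
            refine Finset.sum_congr rfl fun m _ => ?_
            rw [← ha m, IntermediateField.smul_def, smul_eq_mul, map_mul]
            rfl
          have h9 := Fintype.linearIndependent_iff.1 hli a h8
          intro m
          rw [← ha m, h9 m, map_zero]) (fun m => algebraMap K' Ω (c m.1)) (fun m => by
          have h10 : IsAlgebraic A₀ (algebraMap K' Ω (c m.1)) :=
            mem_algebraicClosure_iff.1 (c m.1).2
          obtain ⟨p, hp, hpx⟩ := h10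
          refine ⟨p.map (algebraMap A₀ Ω).rangeRestrictField, ?_, ?_⟩
          · rw [Ne, Polynomial.map_eq_zero_iff (RingHom.injective _)]
            exact hp
          · rw [Polynomial.aeval_def, Polynomial.eval₂_map]
            rw [Polynomial.aeval_def] at hpx
            exact hpx) (by
          rw [← hsum, ← Finset.sum_coe_sort S]
          refine Finset.sum_congr rfl fun m _ => ?_
          rw [hprod])
      intro m hm
      have h11 := h5 ⟨m, hm⟩
      exact (map_eq_zero _).1 h11

end

end Pool.Agent.Run7.h789.LG
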