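import Pool.Agent.Run7.h789.LG.Gauss
import Pool.Agent.W602.GT.Defs

/-!
# Varieties with many units are of log general type
-/

set_option autoImplicit false
set_option synthInstance.maxHeartbeats 400000

open Module FF

namespace Pool.Agent.Run7.h789.LG

open Pool.Agent.W602.GT (LogGeneralType IsPluri LogAt RegAt DerLog DerReg Divisorial)

variable {k K : Type} [Field k] [Field K] [Algebra k K]

/-- the determinant of logarithmic derivatives: the logarithmic form `dlog g (β 0) ∧ …` -/
noncomputable def om {q w : ℕ} (g : Fin q → K) (β : Fin w → Fin q)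
    (D : Fin w → Derivation k K K) : K :=
  (Matrix.of fun i l => lg (D i) (g (β l))).det

theorem om_pluri {q w : ℕ} (g : Fin q → K) (β : Fin w → Fin q) :
    IsPluri 1 (om (k := k) g β) := by
  intro A D
  unfold om
  rw [pow_one, ← Matrix.det_mul]
  congr 1
  ext i l
  rw [Matrix.mul_apply, Matrix.of_apply, ← lgL_apply, map_sum]
  refine Finset.sum_congr rfl fun j _ => ?_
  rw [map_smul, smul_eq_mul, lgL_apply, Matrix.of_apply]

theorem reg_det (P : Place k K) {w : ℕ} (A : Matrix (Fin w) (Fin w) K)
    (h : ∀ i l, P.Reg (A i l)) : P.Reg A.det := by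
  rw [← P.mem_O, Matrix.det_apply]
  refine sum_mem fun σ _ => ?_
  rw [Units.smul_def]
  exact zsmul_mem (prod_mem fun i _ => P.mem_O.2 (h _ _)) _

theorem om_log (P : Place k K) {q w : ℕ} (g : Fin q → K) (β : Fin w → Fin q) :
    LogAt P (om (k := k) g β) := fun D hD =>
  reg_det P _ fun i l => hD i (g (β l))

theorem om_reg (P : Place k K) {q w : ℕ} (g : Fin q → K) (hg : ∀ b, g b ≠ 0)
    (h0 : ∀ b, P.ord (g b) = 0) (β : Fin w → Fin q) : RegAt P (om (k := k) g β) := fun D hD => by
  refine reg_det P _ fun i l => ?_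
  rw [Matrix.of_apply]
  unfold lg
  rw [div_eq_mul_inv]
  refine P.reg_mul (hD i _ ?_) ?_
  · rw [P.reg_iff (hg _), h0]
  · rw [P.reg_iff (inv_ne_zero (hg _)), P.ord_inv, h0, neg_zero]

/-- the logarithmic canonical forms contain many algebraically independent ratios -/
def Lgt1 (k K : Type) [Field k] [Field K] [Algebra k K] (w : ℕ) (Bd : Place k K → Prop) : Prop :=
  Algebra.trdeg k K = w ∧ ∃ ω : Fin (w + 1) → (Fin w → Derivation k K K) → K,
    (∀ j, IsPluri 1 (ω j)) ∧ (∀ P : Place k K, ∀ j, LogAt P (ω j)) ∧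
    (∀ P : Place k K, ¬ Bd P → ∀ j, RegAt P (ω j)) ∧
    ∃ D, ω 0 D ≠ 0 ∧ AlgebraicIndependent k (fun i : Fin w => ω i.succ D / ω 0 D)

theorem lgt1 [CharZero k] {w : ℕ} (htr : Algebra.trdeg k K = w) {q : ℕ} (g : Fin q → K)
    (hg : ∀ b, g b ≠ 0)
    (hno : ∀ D : Derivation k K K, (∀ b, D (lg D (g b)) = 0) → D = 0) (Bd : Place k K → Prop)
    (hBd : ∀ P, ¬ Bd P → ∀ b, P.ord (g b) = 0) : Lgt1 k K w Bd := by
  classical
  obtain ⟨T, hT⟩ := exists_isTranscendenceBasis k K
  have hcard : Cardinal.mk T = Cardinal.mk (Fin w) := by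
    rw [hT.cardinalMk_eq_trdeg, htr, Cardinal.mk_fin]
  obtain ⟨eT⟩ := Cardinal.eq.1 hcard
  have hx₀ : IsTranscendenceBasis k fun i : Fin w => ((eT.symm i : T) : K) :=
    hT.comp_equiv eT.symm
  obtain ⟨J, e, he, b, j, hind⟩ := gauss _ hx₀ g hg hno
  refine ⟨htr, Fin.cases (om g J) fun i => om g (Function.update J (j i) (b i)), ?_,
    ?_, ?_, e, ?_, ?_⟩
  · refine Fin.cases ?_ fun i => ?_
    · exact om_pluri g J
    · exact om_pluri g _
  · intro P
    refine Fin.cases ?_ fun i => ?_
    · exact om_log P g J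
    · exact om_log P g _
  · intro P hP
    refine Fin.cases ?_ fun i => ?_
    · exact om_reg P g hg (hBd P hP) J
    · exact om_reg P g hg (hBd P hP) _
  · have h1 : om g J e = 1 := by
      unfold om
      have h2 : (Matrix.of fun i l => lg (e i) (g (J l))) = (1 : Matrix (Fin w) (Fin w) K) := by
        ext i l
        rw [Matrix.of_apply, he, Matrix.one_apply]
        by_cases h : l = i
        · rw [if_pos h, if_pos h.symm]
        · rw [if_neg h, if_neg (fun h' => h h'.symm)]
      rw [h2, Matrix.det_one]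
    simp only [Fin.cases_zero]
    rw [h1]
    exact one_ne_zero
  · have h1 : om g J e = 1 := by
      unfold om
      have h2 : (Matrix.of fun i l => lg (e i) (g (J l))) = (1 : Matrix (Fin w) (Fin w) K) := by
        ext i l
        rw [Matrix.of_apply, he, Matrix.one_apply]
        by_cases h : l = i
        · rw [if_pos h, if_pos h.symm]
        · rw [if_neg h, if_neg (fun h' => h h'.symm)]
      rw [h2, Matrix.det_one]
    have h3 : ∀ i, om g (Function.update J (j i) (b i)) e = lg (e (j i)) (g (b i)) := by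
      intro i
      unfold om
      have h2 : (Matrix.of fun i' l => lg (e i') (g (Function.update J (j i) (b i) l))) =
          (1 : Matrix (Fin w) (Fin w) K).updateCol (j i) fun i' => lg (e i') (g (b i)) := by
        ext i' l
        rw [Matrix.of_apply, Matrix.updateCol_apply]
        by_cases h : l = j i
        · rw [if_pos h, h, Function.update_self]
        · rw [if_neg h, Function.update_of_ne h, he, Matrix.one_apply]
          by_cases h' : l = i'
          · rw [if_pos h', if_pos h'.symm]
          · rw [if_neg h', if_neg (fun h'' => h' h''.symm)]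
      rw [h2, ← Matrix.cramer_apply, Matrix.cramer_one]
      rfl
    have h4 : (fun i : Fin w => (Fin.cases (om g J)
        (fun i => om g (Function.update J (j i) (b i))) i.succ :
          (Fin w → Derivation k K K) → K) e /
        (Fin.cases (om g J) (fun i => om g (Function.update J (j i) (b i))) (0 : Fin (w + 1)) :
          (Fin w → Derivation k K K) → K) e) = fun i => lg (e (j i)) (g (b i)) := by
      funext i
      simp only [Fin.cases_succ, Fin.cases_zero]
      rw [h1, div_one, h3]
    rw [h4]
    exact hind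

theorem Lgt1.lgt {w : ℕ} {Bd : Place k K → Prop} (h : Lgt1 k K w Bd) :
    LogGeneralType k K w Bd := by
  obtain ⟨h1, ω, h2, h3, h4, h5⟩ := h
  exact ⟨h1, 1, one_pos, ω, h2, fun P _ => h3 P, fun P _ => h4 P, h5⟩

end Pool.Agent.Run7.h789.LG
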