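import Pool.Agent.Run7.h789.LG.Bad

/-!
# Logarithmic derivatives of units: the Gauss map
-/

set_option autoImplicit false
set_option synthInstance.maxHeartbeats 400000

open Module

namespace Pool.Agent.Run7.h789.LG

open Pool.Agent.W602.GT (exists_der_over exists_der der_ext alg_adjoin)

variable {k K : Type} [Field k] [Field K] [Algebra k K]

/-- the logarithmic derivative of `g`, as a linear form on the derivations -/
noncomputable def lgL (g : K) : Derivation k K K →ₗ[K] K where
  toFun D := lg D g
  map_add' D E := by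
    unfold lg
    rw [Derivation.add_apply, add_div]
  map_smul' c D := by
    unfold lg
    rw [Derivation.smul_apply, smul_eq_mul, RingHom.id_apply, smul_eq_mul, mul_div_assoc]

theorem lgL_apply (g : K) (D : Derivation k K K) : lgL g D = lg D g := rfl

/-- logarithmic derivatives and commutators -/
theorem lg_lie (D E : Derivation k K K) {g : K} (hg : g ≠ 0) :
    lg ⁅D, E⁆ g = D (lg E g) - E (lg D g) := by
  unfold lg
  rw [Derivation.commutator_apply, Derivation.leibniz_div, Derivation.leibniz_div]
  simp only [smul_eq_mul]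
  field_simp
  ring

variable [CharZero k]

theorem exists_frame {w : ℕ} (x₀ : Fin w → K) (hx₀ : IsTranscendenceBasis k x₀) {q : ℕ}
    (g : Fin q → K) (hsep : ∀ D : Derivation k K K, (∀ b, lg D (g b) = 0) → D = 0) :
    ∃ (J : Fin w → Fin q) (e : Fin w → Derivation k K K),
      (∀ i l, lg (e i) (g (J l)) = if l = i then 1 else 0) ∧
      ∀ D : Derivation k K K, (∀ l, lg D (g (J l)) = 0) → D = 0 := by
  classical
  let ev : Derivation k K K →ₗ[K] (Fin w → K) :=
    { toFun := fun D i => D (x₀ i)
      map_add' := fun D E => rfl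
      map_smul' := fun c D => rfl }
  have hinj : Function.Injective ev := fun D E h => der_ext x₀ hx₀ fun i => congrFun h i
  have hsurj : Function.Surjective ev := by
    intro c
    obtain ⟨D, hD⟩ := exists_der (L := k) x₀ hx₀ c
    exact ⟨D, funext hD⟩
  let evE : Derivation k K K ≃ₗ[K] (Fin w → K) := LinearEquiv.ofBijective ev ⟨hinj, hsurj⟩
  have hfin : Module.Finite K (Derivation k K K) := Module.Finite.equiv evE.symm
  have hrank : finrank K (Derivation k K K) = w := by
    rw [evE.finrank_eq, finrank_fin_fun]
  obtain ⟨κ, a, ha, hspan, hli⟩ := exists_linearIndependent' K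
    (fun b => (lgL (g b) : Dual K (Derivation k K K)))
  have htop : Submodule.span K (Set.range fun b => (lgL (g b) : Dual K (Derivation k K K))) = ⊤ := by
    by_contra hne
    obtain ⟨f, hf0, hf⟩ := Submodule.exists_le_ker_of_lt_top _ (lt_top_iff_ne_top.2 hne)
    have h1 : (evalEquiv K (Derivation k K K)).symm f = 0 := by
      apply hsep
      intro b
      have h2 : f (lgL (g b)) = 0 := hf (Submodule.subset_span ⟨b, rfl⟩)
      have h3 : evalEquiv K (Derivation k K K) ((evalEquiv K (Derivation k K K)).symm f)
          (lgL (g b)) = f (lgL (g b)) := by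
        rw [LinearEquiv.apply_symm_apply]
      rw [h2] at h3
      exact h3
    apply hf0
    have h4 := congrArg (evalEquiv K (Derivation k K K)) h1
    rwa [LinearEquiv.apply_symm_apply, map_zero] at h4
  have hκf : Finite κ := Finite.of_injective a ha
  let _ : Fintype κ := Fintype.ofFinite κ
  let B : Basis κ K (Dual K (Derivation k K K)) := Basis.mk hli (by rw [hspan, htop])
  have hcard : Fintype.card κ = w := by
    rw [← finrank_eq_card_basis B, Subspace.dual_finrank_eq, hrank]
  let eκ : κ ≃ Fin w := Fintype.equivFinOfCardEq hcard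
  let B' : Basis (Fin w) K (Dual K (Derivation k K K)) := B.reindex eκ
  have hB' : ∀ l, B' l = lgL (g (a (eκ.symm l))) := by
    intro l
    rw [Basis.reindex_apply]
    exact Basis.mk_apply _ _ _
  refine ⟨fun l => a (eκ.symm l), fun i => (evalEquiv K (Derivation k K K)).symm (B'.dualBasis i),
    fun i l => ?_, fun D hD => ?_⟩
  · rw [← lgL_apply, ← hB' l]
    have h3 : evalEquiv K (Derivation k K K)
        ((evalEquiv K (Derivation k K K)).symm (B'.dualBasis i)) (B' l) = B'.dualBasis i (B' l) := by
      rw [LinearEquiv.apply_symm_apply]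
    rw [Basis.dualBasis_apply_self] at h3
    exact h3
  · rw [← Module.forall_dual_apply_eq_zero_iff K D]
    intro f
    rw [← B'.sum_repr f, LinearMap.sum_apply]
    refine Finset.sum_eq_zero fun l _ => ?_
    rw [LinearMap.smul_apply, hB' l, lgL_apply, hD l, smul_zero]

theorem gauss {w : ℕ} (x₀ : Fin w → K) (hx₀ : IsTranscendenceBasis k x₀) {q : ℕ}
    (g : Fin q → K) (hg : ∀ b, g b ≠ 0)
    (hno : ∀ D : Derivation k K K, (∀ b, D (lg D (g b)) = 0) → D = 0) :
    ∃ (J : Fin w → Fin q) (e : Fin w → Derivation k K K),
      (∀ i l, lg (e i) (g (J l)) = if l = i then 1 else 0) ∧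
      ∃ (b : Fin w → Fin q) (j : Fin w → Fin w),
        AlgebraicIndependent k fun i => lg (e (j i)) (g (b i)) := by
  classical
  obtain ⟨J, e, he, hsep⟩ := exists_frame x₀ hx₀ g fun D hD => hno D fun b => by
    rw [hD b, map_zero]
  refine ⟨J, e, he, ?_⟩
  -- the derivations commute
  have hlie : ∀ i j, ⁅e i, e j⁆ = 0 := by
    intro i j
    apply hsep
    intro l
    rw [lg_lie _ _ (hg _), he, he]
    split_ifs <;> simp
  have hcomm : ∀ i j f, e i (e j f) = e j (e i f) := by
    intro i j f
    have h1 : ⁅e i, e j⁆ f = 0 := by rw [hlie, Derivation.zero_apply]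
    rw [Derivation.commutator_apply] at h1
    exact sub_eq_zero.1 h1
  have hsymm : ∀ i j b, e i (lg (e j) (g b)) = e j (lg (e i) (g b)) := by
    intro i j b
    have h1 := lg_lie (e i) (e j) (hg b)
    rw [hlie] at h1
    have h2 : lg (0 : Derivation k K K) (g b) = 0 := by
      unfold lg
      rw [Derivation.zero_apply, zero_div]
    rw [h2] at h1
    exact sub_eq_zero.1 h1.symm
  -- expansion in the frame
  have hexp : ∀ D : Derivation k K K, D = ∑ l, lg D (g (J l)) • e l := by
    intro D
    rw [← sub_eq_zero]
    apply hsep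
    intro l
    rw [← lgL_apply, map_sub, map_sum, sub_eq_zero, lgL_apply]
    rw [Finset.sum_eq_single l]
    · rw [map_smul, lgL_apply, he, if_pos rfl, smul_eq_mul, mul_one]
    · intro m _ hm
      rw [map_smul, lgL_apply, he, if_neg (fun h => hm h.symm), smul_zero]
    · intro h
      exact absurd (Finset.mem_univ l) h
  have happ : ∀ (c : Fin w → K) (f : K), (∑ l, c l • e l) f = ∑ l, c l * e l f := by
    intro c f
    let evf : Derivation k K K →ₗ[K] K :=
      { toFun := fun D => D f
        map_add' := fun _ _ => rfl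
        map_smul' := fun _ _ => rfl }
    have h : evf (∑ l, c l • e l) = ∑ l, c l * e l f := by
      rw [map_sum]
      refine Finset.sum_congr rfl fun l _ => ?_
      rw [map_smul]
      rfl
    exact h
  set S : Set K := Set.range fun p : Fin q × Fin w => lg (e p.2) (g p.1) with hS
  have halg : Algebra.IsAlgebraic (IntermediateField.adjoin k S) K := by
    by_contra hcon
    obtain ⟨D, hD0, hD⟩ := exists_der_over (k := k) S hcon
    let Z : (Fin w → K) → Prop := fun c => ∀ b i, ∑ j, c j * e i (lg (e j) (g b)) = 0
    have hZ1 : Z fun l => lg D (g (J l)) := by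
      intro b i
      have h1 : D (lg (e i) (g b)) = 0 := hD _ ⟨(b, i), rfl⟩
      rw [hexp D, happ] at h1
      rw [← h1]
      exact Finset.sum_congr rfl fun j _ => by rw [hsymm i j b]
    have hne1 : (fun l => lg D (g (J l))) ≠ 0 := by
      intro h
      exact hD0 (hsep D fun l => congrFun h l)
    -- minimal support
    let sp : (Fin w → K) → Finset (Fin w) := fun c => Finset.univ.filter fun j => c j ≠ 0
    have hex : ∃ n, ∃ c, Z c ∧ c ≠ 0 ∧ (sp c).card = n := ⟨_, _, hZ1, hne1, rfl⟩
    obtain ⟨c, hcZ, hc0, hcn⟩ := Nat.find_spec hex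
    have hmin : ∀ c', Z c' → c' ≠ 0 → (sp c).card ≤ (sp c').card := fun c' h1 h2 => by
      rw [hcn]
      exact Nat.find_min' hex ⟨c', h1, h2, rfl⟩
    obtain ⟨j₀, hj₀⟩ := Function.ne_iff.1 hc0
    have hj₀' : c j₀ ≠ 0 := hj₀
    -- normalize
    obtain ⟨c', hc'⟩ : ∃ c' : Fin w → K, c' = fun j => (c j₀)⁻¹ * c j := ⟨_, rfl⟩
    have hZ' : Z c' := by
      intro b i
      have h1 := hcZ b i
      have h2 : ∑ j, c' j * e i (lg (e j) (g b)) =
          (c j₀)⁻¹ * ∑ j, c j * e i (lg (e j) (g b)) := by
        rw [Finset.mul_sum, hc']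
        exact Finset.sum_congr rfl fun j _ => by ring
      rw [h2, h1, mul_zero]
    have hsp : sp c' = sp c := by
      ext j
      simp only [sp, Finset.mem_filter, Finset.mem_univ, true_and, hc']
      constructor
      · exact fun h => right_ne_zero_of_mul h
      · exact fun h => mul_ne_zero (inv_ne_zero hj₀') h
    have hone : c' j₀ = 1 := by
      rw [hc']
      exact inv_mul_cancel₀ hj₀'
    set E : Derivation k K K := ∑ l, c' l • e l with hE
    have hEapp : ∀ f, E f = ∑ l, c' l * e l f := fun f => happ c' f
    have hEa : ∀ b j, E (lg (e j) (g b)) = 0 := by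
      intro b j
      rw [hEapp, ← hZ' b j]
      exact Finset.sum_congr rfl fun l _ => by rw [hsymm l j b]
    have hEc : Z fun j => E (c' j) := by
      intro b i
      have h1 := congrArg E (hZ' b i)
      rw [map_sum, map_zero] at h1
      have h2 : ∀ j, E (c' j * e i (lg (e j) (g b))) =
          E (c' j) * e i (lg (e j) (g b)) + c' j * E (e i (lg (e j) (g b))) := by
        intro j
        rw [E.leibniz, smul_eq_mul, smul_eq_mul]
        ring
      rw [Finset.sum_congr rfl fun j _ => h2 j, Finset.sum_add_distrib] at h1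
      have h3 : ∀ j, E (e i (lg (e j) (g b))) = - ∑ l, e i (c' l) * e l (lg (e j) (g b)) := by
        intro j
        have h4 := congrArg (e i) (hEa b j)
        rw [hEapp, map_sum, map_zero] at h4
        have h5 : ∀ l, e i (c' l * e l (lg (e j) (g b))) =
            c' l * e l (e i (lg (e j) (g b))) + e i (c' l) * e l (lg (e j) (g b)) := by
          intro l
          rw [(e i).leibniz, smul_eq_mul, smul_eq_mul, hcomm i l]
          ring
        rw [Finset.sum_congr rfl fun l _ => h5 l, Finset.sum_add_distrib] at h4
        rw [hEapp]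
        exact eq_neg_of_add_eq_zero_left h4
      have h6 : ∑ j, c' j * E (e i (lg (e j) (g b))) = 0 := by
        rw [Finset.sum_congr rfl fun j _ => by rw [h3 j, mul_neg, Finset.mul_sum],
          Finset.sum_neg_distrib, neg_eq_zero, Finset.sum_comm]
        refine Finset.sum_eq_zero fun l _ => ?_
        have h7 := hZ' b l
        have h8 : ∑ j, c' j * (e i (c' l) * e l (lg (e j) (g b))) =
            e i (c' l) * ∑ j, c' j * e l (lg (e j) (g b)) := by
          rw [Finset.mul_sum]
          exact Finset.sum_congr rfl fun j _ => by ring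
        rw [h8, h7, mul_zero]
      rw [h6, add_zero] at h1
      exact h1
    have hEc0 : ∀ j, E (c' j) = 0 := by
      by_contra hne
      push Not at hne
      obtain ⟨j, hj⟩ := hne
      have h1 := hmin _ hEc fun h => hj (congrFun h j)
      have h2 : sp (fun j => E (c' j)) ⊆ (sp c).erase j₀ := by
        intro i hi
        rw [Finset.mem_erase, ← hsp]
        have hi' : E (c' i) ≠ 0 := (Finset.mem_filter.1 hi).2
        refine ⟨?_, Finset.mem_filter.2 ⟨Finset.mem_univ _, ?_⟩⟩
        · rintro rfl
          rw [hone] at hi'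
          exact hi' E.map_one_eq_zero
        · intro h
          rw [h, map_zero] at hi'
          exact hi' rfl
      have h3 := Finset.card_le_card h2
      have h4 : j₀ ∈ sp c := Finset.mem_filter.2 ⟨Finset.mem_univ _, hj₀'⟩
      rw [Finset.card_erase_of_mem h4] at h3
      have h5 : 0 < (sp c).card := Finset.card_pos.2 ⟨j₀, h4⟩
      omega
    have hlE : ∀ b, lg E (g b) = ∑ l, c' l * lg (e l) (g b) := by
      intro b
      rw [← lgL_apply, hE, map_sum]
      refine Finset.sum_congr rfl fun l _ => ?_
      rw [map_smul, smul_eq_mul, lgL_apply]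
    have hE0 : E = 0 := by
      apply hno
      intro b
      rw [hlE, map_sum]
      refine Finset.sum_eq_zero fun l _ => ?_
      rw [E.leibniz, hEc0, hEa, smul_zero, smul_zero, add_zero]
    have h1 := hlE (J j₀)
    rw [hE0] at h1
    have h2 : lg (0 : Derivation k K K) (g (J j₀)) = 0 := by
      unfold lg
      rw [Derivation.zero_apply, zero_div]
    rw [h2, Finset.sum_eq_single j₀] at h1
    · rw [he, if_pos rfl, mul_one, hone] at h1
      exact zero_ne_one h1
    · intro l _ hl
      rw [he, if_neg (fun h => hl h.symm), mul_zero]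
    · intro h
      exact absurd (Finset.mem_univ j₀) h
  -- a transcendence basis in `S`
  have halg' := alg_adjoin halg
  obtain ⟨T, hTS, hT⟩ := exists_isTranscendenceBasis_subset (R := k) (A := K) S
  have hcard : Cardinal.mk T = Cardinal.mk (Fin w) := hT.cardinalMk_eq hx₀
  obtain ⟨eT⟩ := Cardinal.eq.1 hcard
  choose p hp using fun i : Fin w => hTS (eT.symm i).2
  refine ⟨fun i => (p i).1, fun i => (p i).2, ?_⟩
  have h1 : (fun i : Fin w => lg (e (p i).2) (g (p i).1)) =
      (fun x : T => (x : K)) ∘ eT.symm := funext hp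
  rw [h1]
  exact hT.1.comp _ eT.symm.injective

end Pool.Agent.Run7.h789.LG
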