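import Pool.Agent.Run7.h789.LG.Form
import Pool.Agent.Run7.h789.FV.Aff
import Pool.Agent.Run7.h789.FV.NczO

/-!
# Subvarieties of Zariski-general complements are of log general type
-/

set_option autoImplicit false
set_option synthInstance.maxHeartbeats 400000

open Module FF MvPolynomial

namespace Pool.Agent.Run7.h789.LG

open Pool.Agent.W602.GT (LogGeneralType der_eq_zero)
open Pool.Agent.NH29.GN (Idx Mon fv val quo NoZero Num2 Bad)
open Pool.Agent.Run7.h789.FV (mord mord_eq_zero ge_fv t_ne ncz_open)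

/-- the places at which the point meets one of the hypersurfaces which do not contain it -/
def bnd {k K : Type} [Field k] [Field K] [Algebra k K] {M q : ℕ} {d : Fin q → ℕ}
    (t : Idx M d → k) (y : Fin (M + 1) → K) (P : Place k K) : Prop :=
  ∃ b, fv t y b ≠ 0 ∧ d b * mord P y < P.ord (fv t y b)

theorem fv_base {k K : Type} [Field k] [Field K] [Algebra k K] {M q : ℕ} {d : Fin q → ℕ}
    (t : Idx M d → k) (y : Fin (M + 1) → K) (b : Fin q) :
    fv (K := K) (L := K) (fun s => algebraMap k K (t s)) y b = fv t y b := rfl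

theorem ord_base {k K : Type} [Field k] [Field K] [Algebra k K] {M q : ℕ} {d : Fin q → ℕ}
    {t : Idx M d → k} {y : Fin (M + 1) → K} {b : Fin q} (hb : fv t y b ≠ 0) {P : Place k K}
    (hP : ¬ bnd t y P) : P.ord (fv t y b) = d b * mord P y := by
  have h1 : ¬ (d b * mord P y < P.ord (fv t y b)) := fun h => hP ⟨b, hb, h⟩
  have h2 := ge_fv P (fun s => algebraMap k K (t s)) y b
  rw [fv_base] at h2
  have h3 : mord P (fun β => algebraMap k K (t ⟨b, β⟩)) = 0 := by
    refine mord_eq_zero P (t_ne (t := fun s => algebraMap k K (t s)) (x := y) ?_) fun j hj => ?_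
    · rw [fv_base]
      exact hb
    · refine P.ord_const ?_
      rintro h
      apply hj
      rw [h, map_zero]
  rw [h3, zero_add] at h2
  rcases h2 with h2 | h2
  · exact absurd h2 hb
  · omega

theorem sub_lgt {k₀ : Type} [Field k₀] [CharZero k₀] {M n q : ℕ}
    {V : Set (MvPolynomial (Fin (M + 1)) k₀)} (hV : ∀ H ∈ V, ∃ e, H.IsHomogeneous e)
    {ℓ : Fin (n + 1) → MvPolynomial (Fin (M + 1)) k₀} (hℓ : ∀ j, (ℓ j).IsHomogeneous 1)
    (hN : NoZero V ℓ) (hq : n + 1 ≤ q) {d : Fin q → ℕ} (hd : ∀ i, 1 ≤ d i)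
    (hNum : ∀ C : Finset (Fin q), C ≠ Finset.univ → Num2 n d C) :
    ∃ Φ : MvPolynomial (Idx M d) k₀, Φ ≠ 0 ∧
      ∀ (k K : Type) [Field k] [Field K] [Algebra k₀ k] [Algebra k K] (t : Idx M d → k),
        aeval t Φ ≠ 0 → ∀ y : Fin (M + 1) → K, y ≠ 0 →
        (∀ H ∈ V, eval₂ ((algebraMap k K).comp (algebraMap k₀ k)) y H = 0) →
        (∃ b, fv t y b ≠ 0) ∧ (Algebra.IsAlgebraic (IntermediateField.adjoin k
          {z | ∃ a a', z = y a / y a'}) K → ∀ w : ℕ, Algebra.trdeg k K = w →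
          Lgt1 k K w (bnd t y)) := by
  classical
  obtain ⟨Φ', h3, h4⟩ := ncz_open hV hℓ hN hq hd
  have h1 : ∀ C : Finset (Fin q), ∃ Φ : MvPolynomial (Idx M d) k₀, Φ ≠ 0 ∧ (C ≠ Finset.univ →
      ∀ (K L : Type) [Field K] [Field L] [Algebra k₀ K] [Algebra K L] [IsAlgClosed K]
        (t : Idx M d → K), aeval t Φ ≠ 0 → ∀ x : Fin (M + 1) → L, ¬ Bad k₀ K L V C t x) := by
    intro C
    by_cases hCu : C = Finset.univ
    · exact ⟨1, one_ne_zero, fun h => absurd hCu h⟩
    · obtain ⟨Φ, h1, h2⟩ := nobad hV hℓ hN hq hd C (hNum C hCu)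
      exact ⟨Φ, h1, fun _ => h2⟩
  choose Φ h1 h2 using h1
  refine ⟨(∏ C, Φ C) * Φ', mul_ne_zero (Finset.prod_ne_zero_iff.2 fun C _ => h1 C) h3,
    fun k K _ _ _ _ t ht y hy hyV => ?_⟩
  rw [map_mul, map_prod, mul_ne_zero_iff, Finset.prod_ne_zero_iff] at ht
  have hCk : CharZero k := charZero_of_injective_algebraMap (algebraMap k₀ k).injective
  have h5 : ∃ b, fv t y b ≠ 0 := by
    by_contra hcon
    push Not at hcon
    let _ : Algebra k₀ K := ((algebraMap k K).comp (algebraMap k₀ k)).toAlgebra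
    refine hy (h4 K (fun s => algebraMap k K (t s)) ?_ y (fun H hH => hyV H hH) hcon)
    have h6 : aeval (fun s => algebraMap k K (t s)) Φ' = algebraMap k K (aeval t Φ') := by
      rw [aeval_def, aeval_def, hom_eval₂]
      rfl
    rw [h6]
    exact fun h => ht.2 ((map_eq_zero _).1 h)
  refine ⟨h5, fun halg w hw => ?_⟩
  set C : Finset (Fin q) := Finset.univ.filter fun b => fv t y b = 0 with hC
  obtain ⟨b₀, hb₀⟩ := h5
  have hb₀C : b₀ ∉ C := fun h => hb₀ (Finset.mem_filter.1 h).2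
  have hCu : C ≠ Finset.univ := fun h => hb₀C (h ▸ Finset.mem_univ _)
  have hoff : ∀ b, b ∉ C → fv t y b ≠ 0 := fun b hb h =>
    hb (Finset.mem_filter.2 ⟨Finset.mem_univ _, h⟩)
  have hq0 : ∀ b₀, b₀ ∉ C → ∀ b, quo C t y b₀ b ≠ 0 := by
    intro b₀ hb₀ b
    unfold quo
    split_ifs with hb
    · exact one_ne_zero
    · exact div_ne_zero (pow_ne_zero _ (hoff b hb)) (pow_ne_zero _ (hoff b₀ hb₀))
  refine lgt1 hw (fun b => quo C t y b₀ b) (hq0 b₀ hb₀C) (fun D hD => ?_) _ (fun P hP b => ?_)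
  · -- no derivations
    by_contra hD0
    have hlq : ∀ b₀, b₀ ∉ C → ∀ b, b ∉ C → lg D (quo C t y b₀ b) =
        d b₀ * lg D (fv t y b) - d b * lg D (fv t y b₀) := by
      intro b₀ hb₀ b hb
      have h6 : quo C t y b₀ b = fv t y b ^ d b₀ / fv t y b₀ ^ d b := by
        unfold quo
        rw [if_neg hb]
      rw [h6, lg_div D (pow_ne_zero _ (hoff b hb)) (pow_ne_zero _ (hoff b₀ hb₀)),
        lg_pow D (hoff b hb), lg_pow D (hoff b₀ hb₀)]
    have hnat : ∀ (m : ℕ) (z : K), D ((m : K) * z) = m * D z := by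
      intro m z
      rw [D.leibniz, D.map_natCast, smul_zero, add_zero, smul_eq_mul]
    have hCK : CharZero K := charZero_of_injective_algebraMap (algebraMap k K).injective
    have hall : ∀ b₁, b₁ ∉ C → ∀ b, D (lg D (quo C t y b₁ b)) = 0 := by
      intro b₁ hb₁ b
      by_cases hb : b ∈ C
      · have h6 : quo C t y b₁ b = 1 := by
          unfold quo
          rw [if_pos hb]
        rw [h6, lg_one, map_zero]
      · have e1 := hD b
        have e2 := hD b₁
        rw [hlq b₀ hb₀C b hb, map_sub, hnat, hnat] at e1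
        rw [hlq b₀ hb₀C b₁ hb₁, map_sub, hnat, hnat] at e2
        rw [hlq b₁ hb₁ b hb, map_sub, hnat, hnat]
        have h7 : (d b₀ : K) ≠ 0 := by
          have := hd b₀
          exact_mod_cast (by omega : d b₀ ≠ 0)
        have h8 : (d b₀ : K) * (d b₁ * D (lg D (fv t y b)) - d b * D (lg D (fv t y b₁))) = 0 := by
          linear_combination (d b₁ : K) * e1 - (d b : K) * e2
        exact (mul_eq_zero.1 h8).resolve_left h7
    have hnc : ∃ a a', y a' ≠ 0 ∧ D (y a / y a') ≠ 0 := by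
      by_contra hcon
      push Not at hcon
      apply hD0
      refine der_eq_zero D _ halg ?_
      rintro _ ⟨a, a', rfl⟩
      by_cases h : y a' = 0
      · rw [h, div_zero, map_zero]
      · exact hcon a a' h
    obtain ⟨K', L', i1, i2, i3, i4, i5, t', x', h6, h7⟩ := bad_of_der D hyV
      (fun c hc => (Finset.mem_filter.1 hc).2) hoff hy hall hnc (ht.1 C (Finset.mem_univ _))
    exact h2 C hCu K' L' t' h6 x' h7
  · unfold quo
    split_ifs with hb
    · exact P.ord_one
    · rw [P.ord_div (pow_ne_zero _ (hoff b hb)) (pow_ne_zero _ hb₀), P.ord_pow, P.ord_pow,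
        ord_base (hoff b hb) hP, ord_base hb₀ hP]
      ring

end Pool.Agent.Run7.h789.LG
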